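import Mathlib
import Pool.Agent.V11176.Braid.Class

/-!
# MP_e319d1_co: braid graphs in simply-laced Coxeter systems are median graphs

For every simply-laced Coxeter system (triangles in the Coxeter graph allowed, `S` possibly
infinite) and every reduced expression, the braid graph of the expression is a median graph.
-/

namespace Pool.Agent.Results.MP_e319d1_co.BraidMedian

/-- A Coxeter matrix is simply-laced if all its off-diagonal entries are `2` or `3`. -/
def IsSimplyLaced {B : Type*} (M : CoxeterMatrix B) : Prop := ∀ i j, i ≠ j → M i j = 2 ∨ M i j = 3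

/-- A braid move replaces a consecutive factor `s t s` with `m(s, t) = 3` by `t s t`. -/
def BraidMove {B : Type*} (M : CoxeterMatrix B) (v w : List B) : Prop :=
  ∃ (l₁ l₂ : List B) (s t : B), M s t = 3 ∧ v = l₁ ++ [s, t, s] ++ l₂ ∧ w = l₁ ++ [t, s, t] ++ l₂

/-- The braid class of a word: all words obtained from it by finite sequences of braid moves. -/
def BraidClass {B : Type*} (M : CoxeterMatrix B) (ω : List B) : Type _ :=
  {v : List B // Relation.ReflTransGen (BraidMove M) ω v}

/-- The braid graph of a word: its vertices are the words of the braid class, two of them being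
adjacent when they differ by a single braid move. -/
def braidGraph {B : Type*} (M : CoxeterMatrix B) (ω : List B) : SimpleGraph (BraidClass M ω) where
  Adj v w := BraidMove M v.1 w.1
  symm := ⟨fun _ _ h => V11176.Braid.BraidMove.symm h⟩
  loopless := ⟨by
    rintro ⟨v, _⟩ ⟨l₁, l₂, s, t, h, h1, h2⟩
    have h3 : l₁ ++ [s, t, s] ++ l₂ = l₁ ++ [t, s, t] ++ l₂ := h1.symm.trans h2
    have h4 : s = t := by
      simp at h3
      exact h3.1
    subst h4
    have h5 : M s s = 1 := M.diagonal s
    omega⟩

/-- A median graph: a connected graph such that for every three vertices `u, v, w` exactly one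
vertex lies on a shortest path between each of the pairs `{u, v}`, `{v, w}`, `{u, w}`. -/
def IsMedianGraph {V : Type*} (G : SimpleGraph V) : Prop :=
  G.Connected ∧ ∀ u v w : V, ∃! m : V, G.dist u m + G.dist m v = G.dist u v ∧
    G.dist v m + G.dist m w = G.dist v w ∧ G.dist u m + G.dist m w = G.dist u w

/-- **Braid graphs are median.** For every simply-laced Coxeter system and every reduced expression
`ω`, the braid graph of `ω` is a median graph. -/
theorem result {B W : Type*} [Group W] {M : CoxeterMatrix B} (cs : CoxeterSystem M W)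
    (hM : IsSimplyLaced M) (ω : List B) (hω : cs.IsReduced ω) :
    IsMedianGraph (braidGraph M ω) := by
  classical
  let V := BraidClass M ω
  have hred : ∀ v : V, cs.IsReduced v.1 := fun v => V11176.Braid.red_rtg cs hω v.2
  have hrel : ∀ v w : V, Relation.ReflTransGen (V11176.Braid.BraidMove M) v.1 w.1 := fun v w =>
    (V11176.Braid.rtg_symm v.2).trans w.2
  let p : V → W → ℕ := fun v z => V11176.Braid.pos cs v.1 z
  let S : Finset W := (cs.leftInvSeq ω).toFinset
  let Mt : ℕ → W → W → Prop := fun c x y => ∃ (v w : V) (b : W), V11176.Braid.Info cs c v.1 w.1 x b y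
  have hconn : (braidGraph M ω).Connected := by
    have : Nonempty V := ⟨⟨ω, Relation.ReflTransGen.refl⟩⟩
    refine SimpleGraph.Connected.mk ?_
    have h0 : ∀ v : V, (braidGraph M ω).Reachable ⟨ω, Relation.ReflTransGen.refl⟩ v := by
      rintro ⟨v, hv⟩
      induction hv with
      | refl => exact SimpleGraph.Reachable.refl _
      | @tail a b hab hbc ih =>
        refine ih.trans (SimpleGraph.Adj.reachable ?_)
        exact hbc
    intro v w
    exact (h0 v).symm.trans (h0 w)
  have H : V11176.Braid.Sys (braidGraph M ω) p S Mt := by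
    constructor
    · rintro c x y ⟨v, w, b, h⟩
      exact ⟨w, v, b, h.symm⟩
    · rintro c x y y' ⟨v, w, b, h⟩ ⟨v', w', b', h'⟩
      have h1 := V11176.Braid.center_fixed cs (hred v) (hrel v v') h
      have h2 : b' = b := V11176.Braid.pos_inj cs h'.mb (by rw [h'.vb, h1])
      rw [← h.r1, ← h'.r1, h2]
    · rintro c x y ⟨v, w, b, h⟩
      rw [List.mem_toFinset]
      exact (V11176.Braid.perm_rtg cs hω v.2).mem_iff.2 h.mx
    · rintro c x y x' y' ⟨v, w, b, h⟩ ⟨v', w', b', h'⟩
      exact V11176.Braid.nocons cs (hred v) (hrel v v') ⟨_, h.mv⟩ ⟨_, h'.mv⟩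
    · rintro c x y ⟨v, w, b, h⟩
      exact ⟨v, h.vx, h.vy⟩
    · intro v w hvw
      obtain ⟨c, hc⟩ := V11176.Braid.braidMove_iff.1 hvw
      obtain ⟨x, b, y, h⟩ := V11176.Braid.info cs hc (hred v)
      exact ⟨c, x, y, ⟨⟨v, w, b, h⟩, h.vx, h.vy, h.wx, h.wy, h.oth⟩⟩
    · rintro v c x y ⟨v0, w0, b, h0⟩ hx hy
      obtain ⟨w, hw⟩ := V11176.Braid.avail cs hM (hred v0) (hrel v0 v) h0 hx hy
      have hadj : BraidMove M v.1 w := V11176.Braid.braidMove_iff.2 ⟨c, hw.mv⟩
      exact ⟨⟨w, v.2.tail hadj⟩, hadj,
        ⟨⟨v, ⟨w, v.2.tail hadj⟩, b, hw⟩, hw.vx, hw.vy, hw.wx, hw.wy, hw.oth⟩⟩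
    · intro v w h
      apply Subtype.ext
      apply V11176.Braid.lis_inj cs hM
      have hpv := V11176.Braid.perm_rtg cs hω v.2
      have hpw := V11176.Braid.perm_rtg cs hω w.2
      have hlen : (cs.leftInvSeq v.1).length = (cs.leftInvSeq w.1).length := by
        rw [← hpv.length_eq, ← hpw.length_eq]
      refine List.ext_getElem hlen ?_
      intro i h1 h2
      have hnd := (hred v).nodup_leftInvSeq
      have h3 : (cs.leftInvSeq v.1).idxOf ((cs.leftInvSeq v.1)[i]) = i := hnd.idxOf_getElem i h1
      have h4 := h (cs.leftInvSeq v.1)[i] (by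
        rw [List.mem_toFinset, hpv.mem_iff]; exact List.getElem_mem h1)
      have h5 : (cs.leftInvSeq w.1).idxOf ((cs.leftInvSeq v.1)[i]) = i := by
        have h6 : (cs.leftInvSeq v.1).idxOf ((cs.leftInvSeq v.1)[i]) =
            (cs.leftInvSeq w.1).idxOf ((cs.leftInvSeq v.1)[i]) := h4
        rw [← h6]; exact h3
      have h7 := List.getElem_idxOf (xs := cs.leftInvSeq w.1) (x := (cs.leftInvSeq v.1)[i])
        (by rw [h5]; exact h2)
      rw [← h7]
      congr 1
    · exact hconn
  exact V11176.Braid.median H

end Pool.Agent.Results.MP_e319d1_co.BraidMedian
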